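import Pool.Agent.Helper13.JS.St

/-!
# Project JS, module S2 (helper51): the contribution of the primes of `E`
-/

set_option autoImplicit false

noncomputable section

namespace Pool.Agent.Helper51.JS

open Finset ArithmeticFunction Pool.Agent.Helper13.JS

lemma PE_nonneg {E : Finset ℕ} (N : ℕ) (hE : ∀ p ∈ E, p.Prime) : 0 ≤ PE E N := by
  unfold PE
  apply Finset.prod_nonneg
  intro p hp
  have h := (hE p (Finset.mem_filter.mp hp).1).one_lt
  have h1 : (1 : ℝ) < p := by exact_mod_cast h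
  have h2 : 1 / (p : ℝ) ≤ 1 := by
    rw [div_le_one (by linarith)]; exact h1.le
  linarith

lemma theta_nat (k : ℕ) : ∑ q ∈ (Icc 1 k).filter Nat.Prime, Real.log q ≤ Real.log 4 * k := by
  have h := Chebyshev.theta_le_log4_mul_x (x := (k : ℝ)) (by positivity)
  have h2 : Chebyshev.theta (k : ℝ) = ∑ q ∈ (Icc 1 k).filter Nat.Prime, Real.log q := by
    rw [Chebyshev.theta, Nat.floor_natCast]
    apply Finset.sum_congr _ (fun _ _ => rfl)
    ext p
    simp only [Finset.mem_filter, Finset.mem_Ioc, Finset.mem_Icc]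
    constructor
    · rintro ⟨⟨a, b⟩, c⟩; exact ⟨⟨by omega, b⟩, c⟩
    · rintro ⟨⟨a, b⟩, c⟩; exact ⟨⟨by omega, b⟩, c⟩
  rw [← h2]; exact h

lemma natdiv_le (N q : ℕ) : ((N / q : ℕ) : ℝ) ≤ (N : ℝ) / q := Nat.cast_div_le

lemma div_le_two_natdiv {N q : ℕ} (hq : 1 ≤ q) (hqN : q ≤ N) : (N : ℝ) / q ≤ 2 * ((N / q : ℕ) : ℝ) := by
  have hq0 : (0 : ℝ) < q := by exact_mod_cast hq
  rw [div_le_iff₀ hq0]
  have h1 : 1 ≤ N / q := (Nat.one_le_div_iff (by omega)).mpr hqN
  have h2 := Nat.div_add_mod N q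
  have h3 := Nat.mod_lt N (by omega : 0 < q)
  have h4 : N ≤ 2 * (N / q) * q := by nlinarith
  exact_mod_cast h4

open Classical in
/-- part (c): exchange of the sums -/
lemma part_c (E Fc : Finset ℕ) (N K : ℕ) (hFc : ∀ q ∈ Fc, q.Prime ∧ q ≤ N ∧ N / q ≤ K) :
    ∑ q ∈ Fc, Real.log q * Fr E (N / q) ≤ Real.log 4 * N * Ls E K := by
  have e1 : ∀ q ∈ Fc, Real.log q * Fr E (N / q) =
      ∑ m ∈ (Icc 1 K).filter (fun n => ∀ p ∈ E, ¬ p ∣ n),
        (if m * q ≤ N then Real.log q else 0) := by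
    intro q hq
    obtain ⟨hqp, hqN, hqK⟩ := hFc q hq
    rw [← Finset.sum_filter, Finset.sum_const, nsmul_eq_mul, mul_comm]
    congr 2
    unfold Fr
    congr 1
    ext m
    simp only [Finset.mem_filter, Finset.mem_Icc]
    rw [Nat.le_div_iff_mul_le hqp.pos]
    constructor
    · rintro ⟨⟨a, b⟩, c⟩
      refine ⟨⟨⟨a, ?_⟩, c⟩, b⟩
      exact le_trans ((Nat.le_div_iff_mul_le hqp.pos).mpr b) hqK
    · rintro ⟨⟨⟨a, _⟩, c⟩, b⟩
      exact ⟨⟨a, b⟩, c⟩
  rw [Finset.sum_congr rfl e1, Finset.sum_comm]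
  unfold Ls
  rw [Finset.mul_sum]
  apply Finset.sum_le_sum
  intro m hm
  rw [Finset.mem_filter, Finset.mem_Icc] at hm
  have hm0 : 0 < m := by omega
  rw [← Finset.sum_filter]
  calc ∑ q ∈ Fc.filter (fun q => m * q ≤ N), Real.log q
      ≤ ∑ q ∈ (Icc 1 (N / m)).filter Nat.Prime, Real.log q := by
        apply Finset.sum_le_sum_of_subset_of_nonneg
        · intro q hq
          rw [Finset.mem_filter] at hq
          obtain ⟨hqp, _, _⟩ := hFc q hq.1
          rw [Finset.mem_filter, Finset.mem_Icc]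
          refine ⟨⟨hqp.pos, ?_⟩, hqp⟩
          rw [Nat.le_div_iff_mul_le hm0, mul_comm]
          exact hq.2
        · intro q _ _
          exact Real.log_natCast_nonneg q
    _ ≤ Real.log 4 * ((N / m : ℕ) : ℝ) := theta_nat _
    _ ≤ Real.log 4 * ((N : ℝ) / m) := by
        apply mul_le_mul_of_nonneg_left (natdiv_le N m) (Real.log_nonneg (by norm_num))
    _ = Real.log 4 * N * (1 / (m : ℝ)) := by ring

theorem hS2 (hELU : StELU) (hEU : StEU) (hPC : StPC) (hM1 : Pool.Agent.Helper60.GP.StM1) : StS2 := by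
  classical
  obtain ⟨C1, hC1, h1⟩ := hEU
  obtain ⟨C2, hC2, h2⟩ := hPC
  obtain ⟨C3, h3⟩ := hM1
  obtain ⟨C4, hC4, h4⟩ := hELU
  have hC12 : 1 ≤ C1 * C2 := by nlinarith
  have hC42 : 1 ≤ C4 * C2 := by nlinarith
  refine ⟨3 * (C1 * C2) + 2 * (C4 * C2), by linarith, ?_⟩
  intro η hη hη1
  obtain ⟨w1, hw1, h5⟩ := h2 η hη hη1
  refine ⟨max w1 (max ((2 : ℝ) ^ (2 / η)) (Real.exp (2 * |C3| / η))), le_trans hw1 (le_max_left _ _), ?_⟩
  intro E w N hE hw hms hN1 hN2
  have hww1 : w1 ≤ w := le_trans (le_max_left _ _) hw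
  have hw2 : (2 : ℝ) ^ (2 / η) ≤ w := le_trans (le_trans (le_max_left _ _) (le_max_right _ _)) hw
  have hw3 : Real.exp (2 * |C3| / η) ≤ w := le_trans (le_trans (le_max_right _ _) (le_max_right _ _)) hw
  have hw2' : 2 ≤ w := le_trans hw1 hww1
  have hw0 : 0 < w := by linarith
  have hwone : 1 ≤ w := by linarith
  -- sizes
  have hwη : (2 : ℝ) ≤ w ^ (η / 2) := by
    have h : ((2 : ℝ) ^ (2 / η)) ^ (η / 2) ≤ w ^ (η / 2) := by
      apply Real.rpow_le_rpow (by positivity) hw2 (by positivity)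
    rw [← Real.rpow_mul (by norm_num)] at h
    have h6 : 2 / η * (η / 2) = 1 := by field_simp
    rw [h6, Real.rpow_one] at h
    exact h
  have hNw : w ^ (η / 2) ≤ (N : ℝ) ^ η := by
    have h : (w ^ (1 / 2 : ℝ)) ^ η ≤ (N : ℝ) ^ η :=
      Real.rpow_le_rpow (by positivity) hN1 hη.le
    rw [← Real.rpow_mul hw0.le] at h
    have h6 : (1 / 2 : ℝ) * η = η / 2 := by ring
    rw [h6] at h
    exact h
  have hNη2 : (2 : ℝ) ≤ (N : ℝ) ^ η := le_trans hwη hNw
  have hN1' : (1 : ℝ) < N := by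
    by_contra hcon
    push Not at hcon
    have h : (N : ℝ) ^ η ≤ 1 := Real.rpow_le_one (Nat.cast_nonneg N) hcon hη.le
    linarith
  have hN0 : (0 : ℝ) < N := by linarith
  have hNnat : 2 ≤ N := by
    have : 1 < N := by exact_mod_cast hN1'
    omega
  have hlogN : 0 < Real.log N := Real.log_pos hN1'
  have hlogw : Real.log w ≤ 2 * Real.log N := by
    have h : Real.log (w ^ (1 / 2 : ℝ)) ≤ Real.log N := Real.log_le_log (by positivity) hN1
    rw [Real.log_rpow hw0] at h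
    linarith
  have hC3 : C3 ≤ η * Real.log N := by
    have h : 2 * |C3| / η ≤ Real.log w := by
      rw [Real.le_log_iff_exp_le hw0]; exact hw3
    rw [div_le_iff₀ hη] at h
    have h6 := le_abs_self C3
    nlinarith
  set P : ℝ := PE E N with hP
  have hP0 : 0 ≤ P := PE_nonneg N hE
  -- bound for one term
  have hterm : ∀ q ∈ E, q ≤ N → w ^ (η / 2) ≤ 2 * ((N / q : ℕ) : ℝ) →
      Real.log q * Fr E (N / q) ≤ C1 * C2 * N * P * (Real.log q / q) := by
    intro q hq hqN hq2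
    have hqp := hE q hq
    have h6 := h5 E w (N / q) N hE hww1 hms hq2 (Nat.div_le_self N q) hN1 hN2
    have h7 := h1 E (N / q) hE
    have h8 := PE_nonneg (N / q) hE
    have h9 := natdiv_le N q
    have h10 : (Fr E (N / q) : ℝ) ≤ C1 * ((N : ℝ) / q) * (C2 * P) := by
      refine h7.trans ?_
      have : C1 * ((N / q : ℕ) : ℝ) ≤ C1 * ((N : ℝ) / q) := by gcongr
      exact mul_le_mul this h6 h8 (by positivity)
    calc Real.log q * Fr E (N / q) ≤ Real.log q * (C1 * ((N : ℝ) / q) * (C2 * P)) :=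
          mul_le_mul_of_nonneg_left h10 (Real.log_natCast_nonneg q)
      _ = C1 * C2 * N * P * (Real.log q / q) := by ring
  set F := E.filter (· ≤ N) with hF
  have hFE : ∀ q ∈ F, q ∈ E ∧ q ≤ N := fun q hq => Finset.mem_filter.mp hq
  clear_value F
  -- part (a)
  have ha : ∑ q ∈ F.filter (fun q : ℕ => (q : ℝ) ≤ w ^ η), Real.log q * Fr E (N / q) ≤
      C1 * C2 * N * P * (3 * η * Real.log N) := by
    calc ∑ q ∈ F.filter (fun q : ℕ => (q : ℝ) ≤ w ^ η), Real.log q * Fr E (N / q)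
        ≤ ∑ q ∈ F.filter (fun q : ℕ => (q : ℝ) ≤ w ^ η), C1 * C2 * N * P * (Real.log q / q) := by
          apply Finset.sum_le_sum
          intro q hq
          rw [Finset.mem_filter] at hq
          obtain ⟨hqE, hqN⟩ := hFE q hq.1
          apply hterm q hqE hqN
          have hq1 := (hE q hqE).pos
          have hq0 : (0 : ℝ) < q := by exact_mod_cast hq1
          refine le_trans ?_ (div_le_two_natdiv hq1 hqN)
          rw [le_div_iff₀ hq0]
          calc w ^ (η / 2) * q ≤ w ^ (η / 2) * w ^ η := by gcongr; exact hq.2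
            _ = w ^ (η / 2 + η) := by rw [Real.rpow_add hw0]
            _ ≤ w ^ (1 / 2 : ℝ) := Real.rpow_le_rpow_of_exponent_le hwone (by linarith)
            _ ≤ N := hN1
      _ = C1 * C2 * N * P * ∑ q ∈ F.filter (fun q : ℕ => (q : ℝ) ≤ w ^ η), Real.log q / q := by
          rw [Finset.mul_sum]
      _ ≤ C1 * C2 * N * P * (3 * η * Real.log N) := by
          apply mul_le_mul_of_nonneg_left _ (by positivity)
          have hone : 1 ≤ w ^ η := Real.one_le_rpow hwone hη.le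
          have h6 := (abs_le.mp (h3 (w ^ η) hone)).2
          rw [Real.log_rpow hw0] at h6
          have h7 : ∑ q ∈ F.filter (fun q : ℕ => (q : ℝ) ≤ w ^ η), Real.log q / q ≤
              ∑ p ∈ (Icc 1 ⌊w ^ η⌋₊).filter Nat.Prime, Real.log p / p := by
            apply Finset.sum_le_sum_of_subset_of_nonneg
            · intro q hq
              rw [Finset.mem_filter] at hq
              obtain ⟨hqE, hqN⟩ := hFE q hq.1
              rw [Finset.mem_filter, Finset.mem_Icc]
              exact ⟨⟨(hE q hqE).pos, Nat.le_floor hq.2⟩, hE q hqE⟩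
            · intro q _ _
              exact div_nonneg (Real.log_natCast_nonneg q) (Nat.cast_nonneg q)
          nlinarith
  -- part (b)
  have hb : ∑ q ∈ F.filter (fun q : ℕ => ¬ (q : ℝ) ≤ w ^ η ∧ (N : ℝ) ^ η - 1 ≤ ((N / q : ℕ) : ℝ)),
      Real.log q * Fr E (N / q) ≤ C1 * C2 * N * P * (Real.log N * ms E (w ^ η) w) := by
    calc ∑ q ∈ F.filter (fun q : ℕ => ¬ (q : ℝ) ≤ w ^ η ∧ (N : ℝ) ^ η - 1 ≤ ((N / q : ℕ) : ℝ)),
          Real.log q * Fr E (N / q)
        ≤ ∑ q ∈ F.filter (fun q : ℕ => ¬ (q : ℝ) ≤ w ^ η ∧ (N : ℝ) ^ η - 1 ≤ ((N / q : ℕ) : ℝ)),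
          C1 * C2 * N * P * (Real.log N * (1 / (q : ℝ))) := by
          apply Finset.sum_le_sum
          intro q hq
          rw [Finset.mem_filter] at hq
          obtain ⟨hqE, hqN⟩ := hFE q hq.1
          have hq1 := (hE q hqE).pos
          have hq0 : (0 : ℝ) < q := by exact_mod_cast hq1
          refine (hterm q hqE hqN (by linarith [hq.2.2])).trans ?_
          apply mul_le_mul_of_nonneg_left _ (by positivity)
          have : Real.log q ≤ Real.log N := Real.log_le_log hq0 (by exact_mod_cast hqN)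
          calc Real.log q / q ≤ Real.log N / q := by gcongr
            _ = Real.log N * (1 / (q : ℝ)) := by ring
      _ = C1 * C2 * N * P * (Real.log N * ∑ q ∈ F.filter (fun q : ℕ => ¬ (q : ℝ) ≤ w ^ η ∧
          (N : ℝ) ^ η - 1 ≤ ((N / q : ℕ) : ℝ)), 1 / (q : ℝ)) := by
          rw [Finset.mul_sum, Finset.mul_sum]
      _ ≤ C1 * C2 * N * P * (Real.log N * ms E (w ^ η) w) := by
          apply mul_le_mul_of_nonneg_left _ (by positivity)
          apply mul_le_mul_of_nonneg_left _ hlogN.le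
          unfold ms
          apply Finset.sum_le_sum_of_subset_of_nonneg
          · intro q hq
            rw [Finset.mem_filter] at hq
            obtain ⟨hqE, hqN⟩ := hFE q hq.1
            rw [Finset.mem_filter]
            refine ⟨hqE, not_le.mp hq.2.1, ?_⟩
            exact le_trans (by exact_mod_cast hqN) hN2
          · intro q _ _
            positivity
  -- part (c)
  have hc : ∑ q ∈ F.filter (fun q : ℕ => ¬ (q : ℝ) ≤ w ^ η ∧ ¬ (N : ℝ) ^ η - 1 ≤ ((N / q : ℕ) : ℝ)),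
      Real.log q * Fr E (N / q) ≤ 2 * (C4 * C2) * N * P * (η * Real.log N) := by
    set K := ⌊(N : ℝ) ^ η⌋₊ with hK
    have hK2 : 2 ≤ K := Nat.le_floor (by exact_mod_cast hNη2)
    have hK0 : (0 : ℝ) < K := by exact_mod_cast (by omega : 0 < K)
    have hKle : (K : ℝ) ≤ (N : ℝ) ^ η := Nat.floor_le (by positivity)
    have hKlt : (N : ℝ) ^ η < K + 1 := Nat.lt_floor_add_one _
    have hKN : K ≤ N := by
      have h6 : (N : ℝ) ^ η ≤ (N : ℝ) ^ (1 : ℝ) :=
        Real.rpow_le_rpow_of_exponent_le hN1'.le (by linarith)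
      rw [Real.rpow_one] at h6
      exact_mod_cast hKle.trans h6
    have h6 := part_c E (F.filter (fun q : ℕ => ¬ (q : ℝ) ≤ w ^ η ∧
      ¬ (N : ℝ) ^ η - 1 ≤ ((N / q : ℕ) : ℝ))) N K (by
        intro q hq
        rw [Finset.mem_filter] at hq
        obtain ⟨hqE, hqN⟩ := hFE q hq.1
        refine ⟨hE q hqE, hqN, ?_⟩
        have h7 := not_le.mp hq.2.2
        have h8 : ((N / q : ℕ) : ℝ) < K := by linarith
        exact_mod_cast h8.le)
    refine h6.trans ?_
    have h7 := (h4 E K hE hK2).2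
    have h8 : PE E K ≤ C2 * P := by
      apply h5 E w K N hE hww1 hms _ hKN hN1 hN2
      have : (1 : ℝ) ≤ K := by exact_mod_cast (by omega : 1 ≤ K)
      linarith
    have h9 : Real.log K ≤ η * Real.log N := by
      rw [← Real.log_rpow hN0]
      exact Real.log_le_log hK0 hKle
    have hlogK : 0 ≤ Real.log K := Real.log_natCast_nonneg K
    have h10 : Real.log 4 ≤ 2 := by
      have h11 : Real.log 4 = 2 * Real.log 2 := by
        rw [show (4 : ℝ) = 2 ^ 2 by norm_num, Real.log_pow]; norm_num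
      have := Real.log_two_lt_d9
      rw [h11]; linarith
    have h12 : Ls E K ≤ C4 * (η * Real.log N) * (C2 * P) := by
      refine h7.trans ?_
      have h13 : C4 * Real.log K ≤ C4 * (η * Real.log N) := by gcongr
      exact mul_le_mul h13 h8 (PE_nonneg K hE) (by positivity)
    have h14 : 0 ≤ Ls E K := by
      unfold Ls
      exact Finset.sum_nonneg fun _ _ => by positivity
    calc Real.log 4 * N * Ls E K ≤ 2 * N * (C4 * (η * Real.log N) * (C2 * P)) := by gcongr
      _ = 2 * (C4 * C2) * N * P * (η * Real.log N) := by ring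
  -- assembly
  have hsplit : ∑ q ∈ F, Real.log q * Fr E (N / q) =
      ∑ q ∈ F.filter (fun q : ℕ => (q : ℝ) ≤ w ^ η), Real.log q * Fr E (N / q) +
      (∑ q ∈ F.filter (fun q : ℕ => ¬ (q : ℝ) ≤ w ^ η ∧ (N : ℝ) ^ η - 1 ≤ ((N / q : ℕ) : ℝ)),
        Real.log q * Fr E (N / q) +
      ∑ q ∈ F.filter (fun q : ℕ => ¬ (q : ℝ) ≤ w ^ η ∧ ¬ (N : ℝ) ^ η - 1 ≤ ((N / q : ℕ) : ℝ)),
        Real.log q * Fr E (N / q)) := by
    rw [← Finset.sum_filter_add_sum_filter_not F (fun q : ℕ => (q : ℝ) ≤ w ^ η)]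
    congr 1
    rw [← Finset.sum_filter_add_sum_filter_not (F.filter (fun q : ℕ => ¬ (q : ℝ) ≤ w ^ η))
      (fun q : ℕ => (N : ℝ) ^ η - 1 ≤ ((N / q : ℕ) : ℝ)), Finset.filter_filter, Finset.filter_filter]
  rw [hsplit]
  have hms0 : 0 ≤ ms E (w ^ η) w := by
    unfold ms
    exact Finset.sum_nonneg fun _ _ => by positivity
  have hNP : 0 ≤ (N : ℝ) * P := by positivity
  have k1 : 0 ≤ (N : ℝ) * P * Real.log N * (C4 * C2) * ms E (w ^ η) w := by positivity
  have k2 : 0 ≤ (N : ℝ) * P * Real.log N * (C1 * C2) * ms E (w ^ η) w := by positivity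
  calc _ ≤ C1 * C2 * N * P * (3 * η * Real.log N) + (C1 * C2 * N * P * (Real.log N * ms E (w ^ η) w) +
        2 * (C4 * C2) * N * P * (η * Real.log N)) := by linarith
    _ ≤ (3 * (C1 * C2) + 2 * (C4 * C2)) * N * Real.log N * P * (η + ms E (w ^ η) w) := by
        nlinarith

end Pool.Agent.Helper51.JS
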